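import Pool.Agent.MP_cb3c9c_an.TOP.Sym

set_option autoImplicit false

open Finset

namespace Pool.Agent.Results.MP_cb3c9c_an.DominatingHead

/-- Let `f` be a linear threshold function with weights `c 0` (the constant term), `c 1, …, c n`.
Fix one index `e`, whose weight is arbitrary, and a nonempty set `s` of other indices such that
every `|c i|`, `i ∈ s`, is at least the sum of the `|c j|` over the indices `j` outside `s`, `j ≠ e`.
If `s` has at most four elements, or all the `|c i|`, `i ∈ s`, are equal, then the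
degree-at-most-one Fourier weight of `f` is at least `2/π`. -/
theorem result :
    ∀ n : ℕ, ∀ f : (Fin n → Bool) → ℝ, ∀ c : Fin (n + 1) → ℝ,
      (∀ x, f x = 1 ∨ f x = -1) →
      (∀ x, 0 < f x * (c 0 + ∑ i : Fin n, c i.succ * (if x i then (-1:ℝ) else 1))) →
      ∀ e : Fin (n + 1), ∀ s : Finset (Fin (n + 1)), s.Nonempty → e ∉ s →
      (∀ i ∈ s, ∑ j ∈ (insert e s)ᶜ, |c j| ≤ |c i|) →
      (s.card ≤ 4 ∨ ∀ i ∈ s, ∀ j ∈ s, |c i| = |c j|) →
      2 / Real.pi ≤
        ((∑ x, f x) / (2:ℝ) ^ n) ^ 2 +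
          ∑ i, ((∑ x, f x * (if x i then (-1:ℝ) else 1)) / (2:ℝ) ^ n) ^ 2 := by
  intro n f c hf hpos e s hne hes hd hs
  rw [Pool.Agent.MP_cb3c9c_an.UNI.W1_form]
  exact Pool.Agent.MP_cb3c9c_an.FOUR.head_main f c hf hpos e s hne hes hd hs

end Pool.Agent.Results.MP_cb3c9c_an.DominatingHead
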