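import Pool.Agent.MP_cb3c9c_an.REG.GN

set_option autoImplicit false

open Finset

namespace Pool.Agent.Results.MP_cb3c9c_an.RegularForms

/-- There are absolute constants `c, ε > 0` such that for every `n` and every linear threshold
function `f = sgn (a0 + ∑ a_i x_i)` on the `n`-cube (a bit `true` is read as `-1`, a bit `false` as
`1`, and the affine form vanishes nowhere) whose weights satisfy `a_i ^ 2 ≤ ε ∑_j a_j ^ 2` for all
`i` (arbitrary threshold `a0`), the Fourier weight of `f` at degree at most one is at least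
`2 / π + c ∑ a_i ^ 4 / (∑ a_i ^ 2) ^ 2`. -/
theorem result :
    ∃ c : ℝ, 0 < c ∧ ∃ ε : ℝ, 0 < ε ∧
      ∀ n : ℕ, ∀ f : (Fin n → Bool) → ℝ, ∀ a : Fin n → ℝ, ∀ a0 : ℝ,
        (∀ x, f x = 1 ∨ f x = -1) →
        (∀ x, 0 < f x * (a0 + ∑ i, a i * (if x i then (-1:ℝ) else 1))) →
        (∀ i, a i ^ 2 ≤ ε * ∑ j, a j ^ 2) →
        2 / Real.pi + c * ((∑ i, a i ^ 4) / (∑ i, a i ^ 2) ^ 2) ≤
          ((∑ x, f x) / (2:ℝ) ^ n) ^ 2 +
            ∑ i, ((∑ x, f x * (if x i then (-1:ℝ) else 1)) / (2:ℝ) ^ n) ^ 2 := by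
  obtain ⟨c₀, hc₀, δ₀, hδ₀, hom⟩ := Pool.Agent.MP_cb3c9c_an.REG.hom_main
  exact Pool.Agent.MP_cb3c9c_an.REG.final_of_hom hc₀ hδ₀ hom

end Pool.Agent.Results.MP_cb3c9c_an.RegularForms
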