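import Pool.Agent.MP_cb3c9c_an.TwoBlockMain

set_option autoImplicit false

open Finset

namespace Pool.Agent.Results.MP_cb3c9c_an.TwoBlock

/-- The Fourier coefficient `f^(S) = E[f(x) χ_S(x)]` of a function on the `n`-cube, a bit `true`
being read as `-1` and a bit `false` as `1`. -/
noncomputable def fourierCoeff (n : ℕ) (f : (Fin n → Bool) → ℝ) (S : Finset (Fin n)) : ℝ :=
  (∑ x, f x * ∏ i ∈ S, (if x i then (-1 : ℝ) else 1)) / (2 : ℝ) ^ n

/-- For every linear threshold function: (1) the degree-at-most-one weight is at least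
`5/9 + (1/3) ∑_S f^(S)^4`; (2) if `x` is uniform and `y` arises from `x` by flipping every
coordinate independently with probability `1/4`, then `f(x) ≠ f(y)` has probability at most
`1/3 - (1/16) ∑_S f^(S)^4`; (3) for every set `U` of coordinates the squared Fourier mass on the
subsets of `U` of odd size plus the squared Fourier mass on the subsets of the complement of `U`
is at least `2/3`. -/
theorem result :
    ∀ n : ℕ, ∀ f : (Fin n → Bool) → ℝ, ∀ a : Fin n → ℝ, ∀ a0 : ℝ,
      (∀ x, f x = 1 ∨ f x = -1) →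
      (∀ x, 0 < f x * (a0 + ∑ i, a i * (if x i then (-1:ℝ) else 1))) →
      (5 / 9 + (1 / 3) * ∑ S : Finset (Fin n), fourierCoeff n f S ^ 4 ≤
        ((∑ x, f x) / (2:ℝ) ^ n) ^ 2 +
          ∑ i, ((∑ x, f x * (if x i then (-1:ℝ) else 1)) / (2:ℝ) ^ n) ^ 2) ∧
      ((∑ x, ∑ y, (∏ i, (if x i = y i then (3 / 4 : ℝ) else 1 / 4)) *
          (if f x = f y then (0 : ℝ) else 1)) / (2:ℝ) ^ n ≤
        1 / 3 - (1 / 16) * ∑ S : Finset (Fin n), fourierCoeff n f S ^ 4) ∧
      (∀ U : Finset (Fin n),
        2 / 3 ≤ (∑ S ∈ U.powerset with Odd S.card, fourierCoeff n f S ^ 2) +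
          ∑ S ∈ Uᶜ.powerset, fourierCoeff n f S ^ 2) := by
  intro n f a a0 h1 h2
  have h2' : ∀ x, 0 < f x * Pool.Agent.MP_cb3c9c_an.TwoBlock.aff a0 a x := h2
  have hfh : ∀ S, Pool.Agent.MP_cb3c9c_an.TwoBlock.fh f S = fourierCoeff n f S := by
    intro S
    unfold Pool.Agent.MP_cb3c9c_an.TwoBlock.fh Pool.Agent.MP_cb3c9c_an.TwoBlock.Ex
      Pool.Agent.MP_cb3c9c_an.TwoBlock.chi fourierCoeff
    rw [Pool.Agent.MP_cb3c9c_an.TwoBlock.card_cube]
    rfl
  have H1 := Pool.Agent.MP_cb3c9c_an.TwoBlock.weight_ineq h1 h2'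
  have H2 := Pool.Agent.MP_cb3c9c_an.TwoBlock.stab_ineq h1 h2'
  rw [Pool.Agent.MP_cb3c9c_an.TwoBlock.stab_kernel] at H2
  simp only [hfh] at H1 H2
  refine ⟨by simpa [fourierCoeff] using H1, ?_, ?_⟩
  · have hK : ∀ x : Fin n → Bool,
        ∑ y : Fin n → Bool, ∏ i, (if x i = y i then (3 / 4 : ℝ) else 1 / 4) = 1 := by
      intro x
      have h := Finset.prod_univ_sum (fun _ : Fin n => (univ : Finset Bool))
        (fun i b => (if x i = b then (3 / 4 : ℝ) else 1 / 4))
      rw [Fintype.piFinset_univ] at h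
      rw [← h]
      apply Finset.prod_eq_one
      intro i _
      cases x i <;> simp <;> norm_num
    have hfe : ∀ x y, (if f x = f y then (0 : ℝ) else 1) = (1 - f x * f y) / 2 := by
      intro x y
      rcases h1 x with hx | hx <;> rcases h1 y with hy | hy <;> rw [hx, hy] <;> norm_num
    have e : (∑ x : Fin n → Bool, ∑ y, (∏ i, (if x i = y i then (3 / 4 : ℝ) else 1 / 4)) *
          (if f x = f y then (0 : ℝ) else 1)) / (2:ℝ) ^ n =
        1 / 2 - (1 / 2) * ∑ x, ∑ y, (∏ i, (if x i = y i then (3 / 4 : ℝ) else 1 / 4)) *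
          (f x * f y) / 2 ^ n := by
      have h3 : ∀ x : Fin n → Bool, ∑ y, (∏ i, (if x i = y i then (3 / 4 : ℝ) else 1 / 4)) *
          (if f x = f y then (0 : ℝ) else 1) =
          1 / 2 - (1 / 2) * ∑ y, (∏ i, (if x i = y i then (3 / 4 : ℝ) else 1 / 4)) *
          (f x * f y) := by
        intro x
        have h4 : ∀ y, (∏ i, (if x i = y i then (3 / 4 : ℝ) else 1 / 4)) *
            (if f x = f y then (0 : ℝ) else 1) =
            (1 / 2) * (∏ i, (if x i = y i then (3 / 4 : ℝ) else 1 / 4)) -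
            (1 / 2) * ((∏ i, (if x i = y i then (3 / 4 : ℝ) else 1 / 4)) * (f x * f y)) := by
          intro y
          rw [hfe]; ring
        simp only [h4]
        rw [Finset.sum_sub_distrib, ← mul_sum, ← mul_sum, hK x, mul_one]
      simp only [h3]
      rw [Finset.sum_sub_distrib, sub_div]
      congr 1
      · rw [Finset.sum_const, Finset.card_univ, Fintype.card_fun, Fintype.card_bool,
          Fintype.card_fin, nsmul_eq_mul]
        push_cast
        field_simp
      · rw [← mul_sum, mul_div_assoc, sum_div]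
        congr 1
        apply Finset.sum_congr rfl
        intro x _
        rw [sum_div]
    rw [e]
    linarith
  · intro U
    have H3 := Pool.Agent.MP_cb3c9c_an.TwoBlock.block_ineq h1 h2' (fun i => decide (i ∈ U))
    simp only [hfh] at H3
    have hin : ∀ S : Finset (Fin n),
        Pool.Agent.MP_cb3c9c_an.TwoBlock.inU (fun i => decide (i ∈ U)) S =
          if S ⊆ U then 1 else 0 := by
      intro S
      unfold Pool.Agent.MP_cb3c9c_an.TwoBlock.inU
      split_ifs with h
      · exact Finset.prod_eq_one fun i hi => by simp [h hi]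
      · obtain ⟨i, hi, hiU⟩ := Finset.not_subset.mp h
        exact Finset.prod_eq_zero hi (by simp [hiU])
    have hout : ∀ S : Finset (Fin n),
        Pool.Agent.MP_cb3c9c_an.TwoBlock.outU (fun i => decide (i ∈ U)) S =
          if S ⊆ Uᶜ then 1 else 0 := by
      intro S
      unfold Pool.Agent.MP_cb3c9c_an.TwoBlock.outU
      split_ifs with h
      · exact Finset.prod_eq_one fun i hi => by simp [Finset.mem_compl.mp (h hi)]
      · obtain ⟨i, hi, hiU⟩ := Finset.not_subset.mp h
        exact Finset.prod_eq_zero hi (by simp only [Finset.mem_compl, not_not] at hiU; simp [hiU])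
    have e1 : (∑ S : Finset (Fin n), (if Odd S.card then fourierCoeff n f S ^ 2 *
          Pool.Agent.MP_cb3c9c_an.TwoBlock.inU (fun i => decide (i ∈ U)) S else 0)) =
        ∑ S ∈ U.powerset with Odd S.card, fourierCoeff n f S ^ 2 := by
      rw [Finset.sum_filter, ← Finset.sum_subset (Finset.subset_univ U.powerset)]
      · apply Finset.sum_congr rfl
        intro S hS
        rw [hin, if_pos (Finset.mem_powerset.mp hS), mul_one]
      · intro S _ hS
        rw [hin, if_neg (fun h => hS (Finset.mem_powerset.mpr h)), mul_zero, ite_self]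
    have e2 : (∑ S : Finset (Fin n), fourierCoeff n f S ^ 2 *
          Pool.Agent.MP_cb3c9c_an.TwoBlock.outU (fun i => decide (i ∈ U)) S) =
        ∑ S ∈ Uᶜ.powerset, fourierCoeff n f S ^ 2 := by
      rw [← Finset.sum_subset (Finset.subset_univ Uᶜ.powerset)]
      · apply Finset.sum_congr rfl
        intro S hS
        rw [hout, if_pos (Finset.mem_powerset.mp hS), mul_one]
      · intro S _ hS
        rw [hout, if_neg (fun h => hS (Finset.mem_powerset.mpr h)), mul_zero]
    rw [e1, e2] at H3
    refine le_trans ?_ H3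
    have : 0 ≤ (1 / 4 : ℝ) * (∑ S : Finset (Fin n), fourierCoeff n f S ^ 2 *
        Pool.Agent.MP_cb3c9c_an.TwoBlock.chi S (fun i => decide (i ∈ U))) ^ 2 := by positivity
    linarith

end Pool.Agent.Results.MP_cb3c9c_an.TwoBlock
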