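import Pool.Agent.MP_cb3c9c_an.TOP.Uni
import Pool.Agent.MP_cb3c9c_an.TB.Final

set_option autoImplicit false

open Finset

namespace Pool.Agent.Results.MP_cb3c9c_an.WindowHead

/-- The number of sign patterns at which the partial form `∑_{j ∈ t} ± a j` takes the value `z`. -/
def cnt {m : ℕ} (a : Fin m → ℤ) (t : Finset (Fin m)) (z : ℤ) : ℕ :=
  (univ.filter (fun x : Fin m → Bool => ∑ j ∈ t, a j * (if x j then (-1:ℤ) else 1) = z)).card

/-- The form `∑ ± c j` without its `i`-th term. -/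
def S {m : ℕ} (c : Fin m → ℝ) (i : Fin m) (x : Fin m → Bool) : ℝ :=
  ∑ j ∈ univ.erase i, c j * (if x j then (-1:ℝ) else 1)

open Classical in
/-- The window of `i`: the sign patterns at which the term `± c i` decides the sign of `∑ ± c j`. -/
noncomputable def win {m : ℕ} (c : Fin m → ℝ) (i : Fin m) : Finset (Fin m → Bool) :=
  univ.filter (fun x => |S c i x| < |c i|)

/-- Let `f` be a linear threshold function with weights `c 0` (the constant term), `c 1, …, c n`.
The degree-at-most-one Fourier weight of `f` is at least `2/π` if one of the following holds.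
(1) Every `|c i|` is at most three times the margin `min_x |c 0 + ∑ c i x i|`.
(2) For every `i`, on the window `|S i| < |c i|` either `|S i| ≤ 2/3 |c i|`, or the law of `|S i|` is
dominated in the stop-loss (increasing convex) order by the uniform law on `[0, |c i|]`, or for all
`e > 0` the mean of `cosh (e * S i)` over the window is at most
`cosh u * sqrt (2 * (u * tanh u - log (cosh u))) / u`, where `u = |c i| * e`.
(3) All the weights but one arbitrary real weight lie in `{0, ±C, ±2C}` for some `C > 0`.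
(4)–(6) There are `C > 0`, integers `a i` and a set `s` of indices with `c i = C * a i` on `s` and
one of: (4) the sum of the `a i` over `s` is odd, the `|c j|` outside `s` sum to less than `C`, and
for every `i ∈ s` with `|a i| ≥ 3` the law of `∑_{j ∈ s, j ≠ i} ± a j` is unimodal; (5) the sum of
the `a i` over `s` is even, the `|c j|` outside `s` sum to less than `2 * C`, some `|a i| = 1`, and
this law is unimodal for every `i ∈ s` with `a i ≠ 0`; (6) the `|c j|` outside `s` sum to less than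
`C` and the number of the `i ∈ s` with `|a i| = 1` is at least `2` plus the sum of `a i ^ 2 - 2` over
the `i ∈ s` with `|a i| ≥ 3`. -/
theorem result :
    ∀ n : ℕ, ∀ f : (Fin n → Bool) → ℝ, ∀ c : Fin (n + 1) → ℝ,
      (∀ x, f x = 1 ∨ f x = -1) →
      (∀ x, 0 < f x * (c 0 + ∑ i : Fin n, c i.succ * (if x i then (-1:ℝ) else 1))) →
      ((∀ i, ∀ x : Fin n → Bool,
          |c i| ≤ 3 * |c 0 + ∑ j : Fin n, c j.succ * (if x j then (-1:ℝ) else 1)|) ∨
      (∀ i, (∀ x ∈ win c i, 3 * |S c i x| ≤ 2 * |c i|) ∨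
        (∀ t : ℝ, 0 ≤ t → t ≤ |c i| →
          2 * |c i| * ∑ x ∈ win c i, max (|S c i x| - t) 0 ≤ (|c i| - t) ^ 2 * (win c i).card) ∨
        (∀ e : ℝ, 0 < e → ((|c i| * e) * ∑ x ∈ win c i, Real.cosh (e * S c i x)) ^ 2 ≤
          2 * ((|c i| * e) * Real.tanh (|c i| * e) - Real.log (Real.cosh (|c i| * e))) *
            ((win c i).card * Real.cosh (|c i| * e)) ^ 2)) ∨
      (∃ C : ℝ, 0 < C ∧ ∃ a : Fin (n + 1) → ℤ,
        ((∃ e : Fin (n + 1), ∀ i, i ≠ e → c i = C * a i ∧ |a i| ≤ 2) ∨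
        (∃ s : Finset (Fin (n + 1)), (∀ i ∈ s, c i = C * a i) ∧
          ((Odd (∑ i ∈ s, a i) ∧ ∑ i ∈ sᶜ, |c i| < C ∧
              ∀ i ∈ s, 3 ≤ |a i| → ∀ z : ℤ, 0 ≤ z →
                cnt a (s.erase i) (z + 2) ≤ cnt a (s.erase i) z) ∨
           (Even (∑ i ∈ s, a i) ∧ ∑ i ∈ sᶜ, |c i| < 2 * C ∧ (∃ i ∈ s, |a i| = 1) ∧
              ∀ i ∈ s, a i ≠ 0 → ∀ z : ℤ, 0 ≤ z →
                cnt a (s.erase i) (z + 2) ≤ cnt a (s.erase i) z) ∨
           (∑ i ∈ sᶜ, |c i| < C ∧ ∑ i ∈ s.filter (fun i => 3 ≤ |a i|), ((a i) ^ 2 - 2) + 2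
              ≤ ((s.filter (fun i => |a i| = 1)).card : ℤ))))))) →
      2 / Real.pi ≤
        ((∑ x, f x) / (2:ℝ) ^ n) ^ 2 +
          ∑ i, ((∑ x, f x * (if x i then (-1:ℝ) else 1)) / (2:ℝ) ^ n) ^ 2 := by
  intro n f c hf hpos h
  rcases h with h | h | ⟨C, hC, a, h⟩
  · exact Pool.Agent.MP_cb3c9c_an.TB.window_final f c hf hpos
      (Pool.Agent.MP_cb3c9c_an.TB.win_of_margin c h)
  · refine Pool.Agent.MP_cb3c9c_an.TB.window_final f c hf hpos fun i => ?_
    rcases h i with h | h | h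
    · refine Or.inl fun x hx => h x ?_
      unfold win
      rw [mem_filter]
      exact ⟨mem_univ _, hx⟩
    · exact Or.inr (Or.inl h)
    · exact Or.inr (Or.inr h)
  · rw [Pool.Agent.MP_cb3c9c_an.UNI.W1_form]
    rcases h with ⟨e, he⟩ | ⟨s, hs, h | h | h⟩
    · exact Pool.Agent.MP_cb3c9c_an.FOUR.onetwo_main f c hf hpos C hC a e he
    · exact Pool.Agent.MP_cb3c9c_an.FOUR.uni_main f c hf hpos C hC a s hs (Or.inl h)
    · exact Pool.Agent.MP_cb3c9c_an.FOUR.uni_main f c hf hpos C hC a s hs (Or.inr h)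
    · exact Pool.Agent.MP_cb3c9c_an.FOUR.mass_main f c hf hpos C hC a s hs h.1 h.2

end Pool.Agent.Results.MP_cb3c9c_an.WindowHead
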